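import Pool.Agent.Q49.TL.Pad

/-! # Job TL-UNR: unramified extensions of the field of p-adic numbers from Witt vectors -/

set_option autoImplicit false

namespace Pool.Agent.Q216.TL

open Pool.Agent.Q49.TL Finset

section

variable (p : ℕ) [hp : Fact p.Prime]

/-- reduction of `p`-adic integers -/
noncomputable def rd : ℤ_[p] →+* ZMod p :=
  (WittVector.constantCoeff : WittVector p (ZMod p) →+* ZMod p).comp (WittVector.equiv p).symm.toRingHom

theorem rd_surj (c : ZMod p) : ∃ a : ℤ_[p], rd p a = c :=
  ⟨(c.val : ℤ_[p]), by rw [map_natCast, ZMod.natCast_zmod_val]⟩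

theorem rd_dvd {a : ℤ_[p]} (h : rd p a = 0) : (p : ℤ_[p]) ∣ a := by
  have h1 : ((WittVector.equiv p).symm a).coeff 0 = 0 := h
  rw [← WittVector.mem_span_p_iff_coeff_zero_eq_zero, Ideal.mem_span_singleton] at h1
  obtain ⟨b, hb⟩ := h1
  refine ⟨WittVector.equiv p b, ?_⟩
  have h2 := congrArg (WittVector.equiv p) hb
  rw [RingEquiv.apply_symm_apply, map_mul, map_natCast] at h2
  exact h2

/-- limits -/
theorem lim_exists (c : ℕ → ℤ_[p]) : ∃ s : ℤ_[p], ∀ n, (p : ℤ_[p]) ^ n ∣ s - ∑ j ∈ range n, (p : ℤ_[p]) ^ j * c j := by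
  have hI : IsLocalRing.maximalIdeal ℤ_[p] = Ideal.span {(p : ℤ_[p])} := PadicInt.maximalIdeal_eq_span_p
  have hpre : IsPrecomplete (IsLocalRing.maximalIdeal ℤ_[p]) ℤ_[p] := inferInstance
  have hmem : ∀ (n : ℕ) (z : ℤ_[p]), z ∈ ((IsLocalRing.maximalIdeal ℤ_[p]) ^ n • (⊤ : Submodule ℤ_[p] ℤ_[p])) ↔
      (p : ℤ_[p]) ^ n ∣ z := by
    intro n z
    rw [hI, Ideal.span_singleton_pow, smul_eq_mul, Ideal.mul_top, Ideal.mem_span_singleton]
  obtain ⟨s, hs⟩ := hpre.prec' (fun n => ∑ j ∈ range n, (p : ℤ_[p]) ^ j * c j) (by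
    intro m n hmn
    rw [SModEq.sub_mem, hmem]
    obtain ⟨d, rfl⟩ := Nat.exists_eq_add_of_le hmn
    rw [sum_range_add, sub_add_cancel_left, dvd_neg]
    apply dvd_sum
    intro j _
    rw [pow_add, mul_assoc]
    exact dvd_mul_right _ _)
  refine ⟨s, fun n => ?_⟩
  have h := (hs n).symm
  rw [SModEq.sub_mem, hmem] at h
  exact h

variable (k : Type) [Field k] [Algebra (ZMod p) k]

theorem charP_k : CharP k p := charP_of_injective_algebraMap (algebraMap (ZMod p) k).injective p

theorem tau_coeff (a : ℤ_[p]) : (tau p k a).coeff 0 = algebraMap (ZMod p) k (rd p a) := rfl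

theorem tau_injective : Function.Injective (tau p k) :=
  (WittVector.map_injective _ (algebraMap (ZMod p) k).injective).comp (WittVector.equiv p).symm.injective

section

variable [CharP k p] [PerfectRing k p] {ι : Type} [Fintype ι] (b : Module.Basis ι (ZMod p) k)

omit [CharP k p] [PerfectRing k p] in
theorem sum_coeff (a : ι → ℤ_[p]) : (∑ i, tau p k (a i) * WittVector.teichmuller p (b i)).coeff 0 =
    ∑ i, rd p (a i) • b i := by
  have h := map_sum (WittVector.constantCoeff : WittVector p k →+* k)
    (fun i => tau p k (a i) * WittVector.teichmuller p (b i)) univ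
  refine Eq.trans h (sum_congr rfl fun i _ => ?_)
  rw [map_mul, Algebra.smul_def]
  rfl

theorem step (x : WittVector p k) : ∃ (a : ι → ℤ_[p]) (y : WittVector p k),
    x = (∑ i, tau p k (a i) * WittVector.teichmuller p (b i)) + p * y := by
  choose r hr using rd_surj p
  have h1 : (x - ∑ i, tau p k (r (b.repr (x.coeff 0) i)) * WittVector.teichmuller p (b i)).coeff 0 = 0 := by
    have h := map_sub (WittVector.constantCoeff : WittVector p k →+* k) x
      (∑ i, tau p k (r (b.repr (x.coeff 0) i)) * WittVector.teichmuller p (b i))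
    refine Eq.trans h ?_
    show x.coeff 0 - (∑ i, tau p k (r (b.repr (x.coeff 0) i)) * WittVector.teichmuller p (b i)).coeff 0 = 0
    rw [sum_coeff]
    simp only [hr]
    rw [b.sum_repr, sub_self]
  rw [← WittVector.mem_span_p_iff_coeff_zero_eq_zero, Ideal.mem_span_singleton] at h1
  obtain ⟨y, hy⟩ := h1
  exact ⟨fun i => r (b.repr (x.coeff 0) i), y, by rw [← hy]; ring⟩

omit [Algebra (ZMod p) k] in
theorem eq_zero_of_dvd {x : WittVector p k} (h : ∀ n : ℕ, (p : WittVector p k) ^ n ∣ x) : x = 0 := by
  ext n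
  have h1 := h (n + 1)
  rw [← Ideal.mem_span_singleton, WittVector.mem_span_p_pow_iff_le_coeff_eq_zero] at h1
  rw [h1 n (Nat.lt_succ_self n), WittVector.zero_coeff]

theorem span (x : WittVector p k) : ∃ a : ι → ℤ_[p],
    x = ∑ i, tau p k (a i) * WittVector.teichmuller p (b i) := by
  choose A Y hAY using step p k b
  set xs : ℕ → WittVector p k := fun n => Y^[n] x with hxs
  have h1 : ∀ n, x = (∑ i, tau p k (∑ j ∈ range n, (p : ℤ_[p]) ^ j * A (xs j) i) *
      WittVector.teichmuller p (b i)) + (p : WittVector p k) ^ n * xs n := by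
    intro n
    induction n with
    | zero => simp [hxs]
    | succ n ih =>
      have h2 := hAY (xs n)
      have h3 : xs (n + 1) = Y (xs n) := Function.iterate_succ_apply' _ _ _
      rw [h3]
      have h4 : ∑ i, tau p k (∑ j ∈ range (n + 1), (p : ℤ_[p]) ^ j * A (xs j) i) *
          WittVector.teichmuller p (b i) = (∑ i, tau p k (∑ j ∈ range n, (p : ℤ_[p]) ^ j * A (xs j) i) *
          WittVector.teichmuller p (b i)) + (p : WittVector p k) ^ n *
          ∑ i, tau p k (A (xs n) i) * WittVector.teichmuller p (b i) := by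
        rw [mul_sum, ← sum_add_distrib]
        apply sum_congr rfl
        intro i _
        rw [sum_range_succ, map_add, map_mul, map_pow, map_natCast]
        ring
      rw [h4]
      have h5 : (p : WittVector p k) ^ n * xs n = (p : WittVector p k) ^ n *
          (∑ i, tau p k (A (xs n) i) * WittVector.teichmuller p (b i)) +
          (p : WittVector p k) ^ (n + 1) * Y (xs n) := by
        conv_lhs => rw [h2]
        ring
      rw [add_assoc, ← h5]
      exact ih
  choose s hs using fun i => lim_exists p (fun j => A (xs j) i)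
  refine ⟨s, ?_⟩
  rw [← sub_eq_zero]
  apply eq_zero_of_dvd
  intro n
  have h2 : x - ∑ i, tau p k (s i) * WittVector.teichmuller p (b i) = (p : WittVector p k) ^ n * xs n -
      ∑ i, tau p k (s i - ∑ j ∈ range n, (p : ℤ_[p]) ^ j * A (xs j) i) * WittVector.teichmuller p (b i) := by
    conv_lhs => rw [h1 n]
    simp only [map_sub, sub_mul, sum_sub_distrib]
    ring
  rw [h2]
  apply dvd_sub (dvd_mul_right _ _)
  apply dvd_sum
  intro i _
  apply Dvd.dvd.mul_right
  obtain ⟨c, hc⟩ := hs i n
  rw [hc, map_mul, map_pow, map_natCast]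
  exact dvd_mul_right _ _

theorem indep_pow (n : ℕ) : ∀ a : ι → ℤ_[p], ∑ i, tau p k (a i) * WittVector.teichmuller p (b i) = 0 →
    ∀ i, (p : ℤ_[p]) ^ n ∣ a i := by
  induction n with
  | zero => intro a _ i; rw [pow_zero]; exact one_dvd _
  | succ n ih =>
    intro a ha
    have h1 : ∑ i, rd p (a i) • b i = 0 := by
      rw [← sum_coeff, ha, WittVector.zero_coeff]
    have h2 : ∀ i, rd p (a i) = 0 := Fintype.linearIndependent_iff.1 b.linearIndependent _ h1
    choose c hc using fun i => rd_dvd p (h2 i)
    have h3 : (∑ i, tau p k (c i) * WittVector.teichmuller p (b i)) * p = 0 := by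
      rw [← ha, sum_mul]
      apply sum_congr rfl
      intro i _
      rw [hc i, map_mul, map_natCast]
      ring
    have h4 := ih c (WittVector.eq_zero_of_p_mul_eq_zero _ h3)
    intro i
    rw [hc i, pow_succ']
    exact mul_dvd_mul_left _ (h4 i)

theorem indep {a : ι → ℤ_[p]} (ha : ∑ i, tau p k (a i) * WittVector.teichmuller p (b i) = 0) (i : ι) :
    a i = 0 := by
  have h := fun n => indep_pow p k b n a ha i
  by_contra hne
  have hf : FiniteMultiplicity (p : ℤ_[p]) (a i) :=
    FiniteMultiplicity.of_prime_left PadicInt.prime_p hne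
  obtain ⟨n, hn⟩ := hf
  exact hn (h (n + 1))

end

end

section

variable (p : ℕ) [hp : Fact p.Prime] (k : Type) [Field k] [Algebra (ZMod p) k] [CharP k p] [PerfectRing k p]
  (K : Type) [Field K] [Algebra ℚ_[p] K] [Algebra (WittVector p k) K] [IsFractionRing (WittVector p k) K]
  (hK : ∀ a : ℤ_[p], algebraMap (WittVector p k) K (tau p k a) = algebraMap ℚ_[p] K (a : ℚ_[p]))
  {ι : Type} [Fintype ι] (b : Module.Basis ι (ZMod p) k)

/-- the family -/
noncomputable def vv (i : ι) : K := algebraMap (WittVector p k) K (WittVector.teichmuller p (b i))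

include hK

theorem img (a : ι → ℤ_[p]) : algebraMap (WittVector p k) K
    (∑ i, tau p k (a i) * WittVector.teichmuller p (b i)) = ∑ i, (a i : ℚ_[p]) • vv p k K b i := by
  rw [map_sum]
  apply sum_congr rfl
  intro i _
  rw [map_mul, hK, Algebra.smul_def]
  rfl

theorem lin : LinearIndependent ℚ_[p] (vv p k K b) := by
  rw [Fintype.linearIndependent_iff]
  intro g hg
  obtain ⟨c, hc⟩ := IsLocalization.exist_integer_multiples_of_finite (nonZeroDivisors ℤ_[p]) g
  choose a ha using hc
  have hc0 : ((c : ℤ_[p]) : ℚ_[p]) ≠ 0 := fun h => nonZeroDivisors.ne_zero c.2 (Subtype.ext h)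
  have ha' : ∀ i, ((a i : ℤ_[p]) : ℚ_[p]) = (c : ℤ_[p]) * g i := by
    intro i
    have := ha i
    rw [Algebra.smul_def] at this
    exact this
  have h1 : algebraMap (WittVector p k) K (∑ i, tau p k (a i) * WittVector.teichmuller p (b i)) = 0 := by
    rw [img p k K hK b]
    simp only [ha', mul_smul]
    rw [← smul_sum, hg, smul_zero]
  have h2 : ∑ i, tau p k (a i) * WittVector.teichmuller p (b i) = 0 :=
    (map_eq_zero_iff _ (IsFractionRing.injective (WittVector p k) K)).1 h1
  intro i
  have h3 := ha' i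
  rw [indep p k b h2 i] at h3
  have h4 : ((c : ℤ_[p]) : ℚ_[p]) * g i = 0 := by
    rw [← h3]
    exact_mod_cast rfl
  exact (mul_eq_zero.1 h4).resolve_left hc0

theorem gen : ⊤ ≤ Submodule.span ℚ_[p] (Set.range (vv p k K b)) := by
  intro z _
  obtain ⟨x, y, hy, rfl⟩ := IsFractionRing.div_surjective (A := WittVector p k) z
  obtain ⟨m, u, hu⟩ := WittVector.exists_eq_pow_p_mul' y (nonZeroDivisors.ne_zero hy)
  obtain ⟨a, ha⟩ := span p k b (x * ((u⁻¹ : (WittVector p k)ˣ) : WittVector p k))
  have hpK : (algebraMap ℚ_[p] K (p : ℚ_[p])) ≠ 0 := by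
    rw [map_ne_zero]
    exact_mod_cast hp.out.ne_zero
  have h1 : algebraMap (WittVector p k) K x / algebraMap (WittVector p k) K y =
      (((p : ℚ_[p]) ^ m)⁻¹ : ℚ_[p]) • ∑ i, (a i : ℚ_[p]) • vv p k K b i := by
    rw [← img p k K hK b, ← ha, hu, Algebra.smul_def, map_inv₀, map_pow, map_mul, map_mul, map_pow]
    have h2 : algebraMap (WittVector p k) K (p : WittVector p k) = algebraMap ℚ_[p] K (p : ℚ_[p]) := by
      rw [map_natCast, map_natCast]
    have h3 : algebraMap (WittVector p k) K (u : WittVector p k) ≠ 0 := by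
      rw [Ne, map_eq_zero_iff _ (IsFractionRing.injective (WittVector p k) K)]
      exact u.ne_zero
    have h4 : algebraMap (WittVector p k) K (u : WittVector p k) *
        algebraMap (WittVector p k) K ((u⁻¹ : (WittVector p k)ˣ) : WittVector p k) = 1 := by
      rw [← map_mul, Units.mul_inv, map_one]
    have h5 : algebraMap (WittVector p k) K ((u⁻¹ : (WittVector p k)ˣ) : WittVector p k) =
        (algebraMap (WittVector p k) K (u : WittVector p k))⁻¹ := eq_inv_of_mul_eq_one_right h4
    rw [h2, h5]
    field_simp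
  rw [h1]
  apply Submodule.smul_mem
  apply Submodule.sum_mem
  intro i _
  apply Submodule.smul_mem
  exact Submodule.subset_span ⟨i, rfl⟩

/-- the basis -/
noncomputable def bas : Module.Basis ι ℚ_[p] K := Module.Basis.mk (lin p k K hK b) (gen p k K hK b)

theorem fin_dim [Finite k] : FiniteDimensional ℚ_[p] K ∧ Module.finrank ℚ_[p] K = Module.finrank (ZMod p) k := by
  have hf : Module.Finite (ZMod p) k := inferInstance
  set b := Module.finBasis (ZMod p) k
  refine ⟨(bas p k K hK b).finiteDimensional_of_finite, ?_⟩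
  rw [Module.finrank_eq_card_basis (bas p k K hK b), Fintype.card_fin]

/-- the automorphism of the Witt vectors -/
noncomputable def wmap (σ : k ≃ₐ[ZMod p] k) : WittVector p k ≃+* WittVector p k :=
  RingEquiv.ofRingHom (WittVector.map (σ : k →+* k)) (WittVector.map (σ.symm : k →+* k))
    (by
      ext x n
      show σ (σ.symm (x.coeff n)) = x.coeff n
      exact σ.apply_symm_apply _)
    (by
      ext x n
      show σ.symm (σ (x.coeff n)) = x.coeff n
      exact σ.symm_apply_apply _)

omit [CharP k p] [PerfectRing k p] hK [Algebra ℚ_[p] K] [Algebra (WittVector p k) K] [IsFractionRing (WittVector p k) K] [Field K] in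
theorem wmap_tau (σ : k ≃ₐ[ZMod p] k) (a : ℤ_[p]) : wmap p k σ (tau p k a) = tau p k a := by
  ext n
  show σ (algebraMap (ZMod p) k _) = algebraMap (ZMod p) k _
  exact σ.commutes _

/-- the automorphism of the field of fractions -/
noncomputable def kmap (σ : k ≃ₐ[ZMod p] k) : K ≃ₐ[ℚ_[p]] K :=
  AlgEquiv.ofRingEquiv (f := IsFractionRing.ringEquivOfRingEquiv (K := K) (L := K) (wmap p k σ)) (by
    have h : ((IsFractionRing.ringEquivOfRingEquiv (K := K) (L := K) (wmap p k σ) : K ≃+* K) : K →+* K).comp
        (algebraMap ℚ_[p] K) = algebraMap ℚ_[p] K := by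
      apply IsLocalization.ringHom_ext (nonZeroDivisors ℤ_[p])
      ext a
      show (IsFractionRing.ringEquivOfRingEquiv (K := K) (L := K) (wmap p k σ)) (algebraMap ℚ_[p] K (a : ℚ_[p])) =
        algebraMap ℚ_[p] K (a : ℚ_[p])
      rw [← hK, IsFractionRing.ringEquivOfRingEquiv_algebraMap, wmap_tau]
    intro q
    exact RingHom.congr_fun h q)

theorem kmap_injective : Function.Injective (kmap p k K hK) := by
  intro σ σ' h
  ext x
  have h1 : kmap p k K hK σ (algebraMap (WittVector p k) K (WittVector.teichmuller p x)) =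
      kmap p k K hK σ' (algebraMap (WittVector p k) K (WittVector.teichmuller p x)) := by rw [h]
  have h2 : ∀ τ : k ≃ₐ[ZMod p] k, kmap p k K hK τ (algebraMap (WittVector p k) K (WittVector.teichmuller p x)) =
      algebraMap (WittVector p k) K (wmap p k τ (WittVector.teichmuller p x)) := fun τ =>
    IsFractionRing.ringEquivOfRingEquiv_algebraMap (K := K) (L := K) (wmap p k τ) _
  rw [h2, h2] at h1
  have h3 := IsFractionRing.injective (WittVector p k) K h1
  have h4 := congrArg (fun w : WittVector p k => w.coeff 0) h3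
  exact h4

theorem gal [Finite k] : IsGalois ℚ_[p] K := by
  obtain ⟨h1, h2⟩ := fin_dim p k K hK
  have hf : Module.Finite (ZMod p) k := inferInstance
  have hg : IsGalois (ZMod p) k := inferInstance
  apply IsGalois.of_card_aut_eq_finrank
  apply le_antisymm
  · rw [Nat.card_eq_fintype_card]
    exact AlgEquiv.card_le
  · rw [h2, ← IsGalois.card_aut_eq_finrank]
    exact Nat.card_le_card_of_injective _ (kmap_injective p k K hK)

end

theorem unr : S_UNR := by
  intro p _ k _ _ _
  have hch : CharP k p := charP_k p k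
  have hpf : PerfectRing k p := inferInstance
  have hinj : Function.Injective ((algebraMap (WittVector p k) (FractionRing (WittVector p k))).comp (tau p k)) :=
    (IsFractionRing.injective _ _).comp (tau_injective p k)
  letI : Algebra ℚ_[p] (FractionRing (WittVector p k)) :=
    (IsFractionRing.lift (A := ℤ_[p]) (K := ℚ_[p]) hinj).toAlgebra
  have hK : ∀ a : ℤ_[p], algebraMap (WittVector p k) (FractionRing (WittVector p k)) (tau p k a) =
      algebraMap ℚ_[p] (FractionRing (WittVector p k)) (a : ℚ_[p]) := by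
    intro a
    exact (IsFractionRing.lift_algebraMap hinj a).symm
  obtain ⟨h1, h2⟩ := fin_dim p k (FractionRing (WittVector p k)) hK
  exact ⟨FractionRing (WittVector p k), inferInstance, inferInstance, algebraMap _ _, h1,
    gal p k (FractionRing (WittVector p k)) hK, h2, IsFractionRing.injective _ _, hK⟩

end Pool.Agent.Q216.TL
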