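import Pool.Agent.Q49.TL.Pad

/-! # Job TL-WIT: solutions modulo all powers of `p` -/

set_option autoImplicit false

namespace Pool.Agent.Q216.TL

open Pool.Agent.Q49.TL Finset MvPolynomial

section hom

variable {σ τ R S : Type} [CommRing R] [CommRing S]

theorem weight_sum (w : σ → ℕ) (d : σ →₀ ℕ) : Finsupp.weight w d = ∑ i ∈ d.support, d i * w i := by
  rw [Finsupp.weight_apply, Finsupp.sum]
  rfl

/-- substitution of weighted homogeneous polynomials -/
theorem subst_hom {w : σ → ℕ} {w' : τ → ℕ} {P : σ → MvPolynomial τ R}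
    (hP : ∀ s, IsWeightedHomogeneous w' (P s) (w s)) {f : MvPolynomial σ R} {n : ℕ}
    (hf : IsWeightedHomogeneous w f n) : IsWeightedHomogeneous w' (eval₂ C P f) n := by
  rw [eval₂_eq]
  apply IsWeightedHomogeneous.sum
  intro d hd
  apply IsWeightedHomogeneous.C_mul
  have h1 := IsWeightedHomogeneous.prod (w := w') d.support (fun i => P i ^ d i) (fun i => d i • w i)
    (fun i _ => (hP i).pow (d i))
  have h2 : ∑ i ∈ d.support, d i • w i = n := by
    rw [← hf (mem_support_iff.1 hd), weight_sum]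
    rfl
  rw [h2] at h1
  exact h1

theorem eval_hom {w : σ → ℕ} {f : MvPolynomial σ R} {n : ℕ} (hf : IsWeightedHomogeneous w f n)
    (g : R →+* S) (c : S) (x : σ → S) :
    eval₂ g (fun i => c ^ w i * x i) f = c ^ n * eval₂ g x f := by
  rw [eval₂_eq, eval₂_eq, mul_sum]
  apply sum_congr rfl
  intro d hd
  have h2 : ∑ i ∈ d.support, d i * w i = n := by
    rw [← hf (mem_support_iff.1 hd), weight_sum]
  rw [← h2, ← prod_pow_eq_pow_sum]
  simp only [mul_pow]
  rw [prod_mul_distrib]
  have h3 : ∀ i, (c ^ w i) ^ d i = c ^ (d i * w i) := fun i => by rw [← pow_mul, mul_comm]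
  simp only [h3]
  ring

end hom

theorem eval_subst {σ τ R : Type} [CommRing R] (y : τ → R) (P : σ → MvPolynomial τ R) (g : MvPolynomial σ R) :
    eval y (eval₂ C P g) = eval (fun q => eval y (P q)) g := by
  induction g using MvPolynomial.induction_on with
  | C a => simp
  | add f g hf hg => simp only [eval₂_add, map_add, hf, hg]
  | mul_X f i hf => simp only [eval₂_mul, eval₂_X, map_mul, hf, eval_X]

theorem fac_pow {p ℓ e : ℕ} (hp : p.Prime) (hne : p ≠ ℓ) (he : 0 < e) (m : ℕ) :
    (e * p ^ m).factorization ℓ = e.factorization ℓ := by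
  rw [Nat.factorization_mul he.ne' (pow_pos hp.pos m).ne', Nat.factorization_pow]
  simp only [Finsupp.add_apply, Finsupp.smul_apply]
  have : p.factorization ℓ = 0 := by
    rw [hp.factorization, Finsupp.single_apply, if_neg hne]
  rw [this, smul_zero, add_zero]

theorem wit (h1 : S_GWI) (h2 : S_KAP) (h3 : S_TK) : S_WIT := by
  intro p ℓ hp hℓ hne ι κ _ _ w e f hw he hf hsum c
  classical
  obtain ⟨κ', iF, iA, halg, hirr, hfin⟩ := h2 p ℓ
  have hTs := h3 p ℓ κ' halg hirr
  set N : ℕ → ℕ := fun d => ℓ ^ d.factorization ℓ with hN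
  set s : ℕ := c * (∑ j, N (e j)) + 1 with hs
  choose G hG1 hG2 using fun j => h1 p κ' ι w (e j) (f j) (hf j)
  -- the system
  set P : ι × ℕ → MvPolynomial (Σ i : ι, Fin (w i * s)) κ' := fun q =>
    if h : q.2 < w q.1 * s then X ⟨q.1, ⟨q.2, h⟩⟩ else 0 with hP
  have hPh : ∀ q : ι × ℕ, IsWeightedHomogeneous (fun t : Σ i : ι, Fin (w i * s) => w t.1 * p ^ (t.2 : ℕ)) (P q)
      (w q.1 * p ^ q.2) := by
    intro q
    simp only [hP]
    split_ifs with h
    · exact isWeightedHomogeneous_X κ' (fun t : Σ i : ι, Fin (w i * s) => w t.1 * p ^ (t.2 : ℕ)) ⟨q.1, ⟨q.2, h⟩⟩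
    · exact isWeightedHomogeneous_zero κ' _ _
  have hNp : ∀ d m : ℕ, 0 < d → N (d * p ^ m) = N d := fun d m hd => by
    simp only [hN]
    rw [fac_pow hp.out hne hd m]
  obtain ⟨y, hy0, hy⟩ := hTs (Σ i : ι, Fin (w i * s)) (Σ j : κ, Fin (e j * s + c))
    (fun t => w t.1 * p ^ (t.2 : ℕ)) (fun t => e t.1 * p ^ (t.2 : ℕ))
    (fun t => eval₂ C P (G t.1 t.2))
    (fun t => Nat.mul_pos (hw t.1) (pow_pos hp.out.pos _))
    (fun t => Nat.mul_pos (he t.1) (pow_pos hp.out.pos _))
    (fun t => subst_hom hPh (hG1 t.1 t.2)) (by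
      show ∑ t : Σ j : κ, Fin (e j * s + c), N (e t.1 * p ^ (t.2 : ℕ)) <
        ∑ t : Σ i : ι, Fin (w i * s), N (w t.1 * p ^ (t.2 : ℕ))
      simp only [hNp _ _ (he _), hNp _ _ (hw _)]
      rw [Fintype.sum_sigma, Fintype.sum_sigma]
      simp only [sum_const, card_univ, Fintype.card_fin, smul_eq_mul]
      have e1 : ∑ j, (e j * s + c) * N (e j) = s * (∑ j, e j * N (e j)) + c * ∑ j, N (e j) := by
        rw [mul_sum, mul_sum, ← sum_add_distrib]
        exact sum_congr rfl fun j _ => by ring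
      have e2 : ∑ i, w i * s * N (w i) = s * ∑ i, w i * N (w i) := by
        rw [mul_sum]
        exact sum_congr rfl fun j _ => by ring
      rw [e1, e2]
      have e3 : (∑ j, e j * N (e j)) + 1 ≤ ∑ i, w i * N (w i) := hsum
      calc s * (∑ j, e j * N (e j)) + c * ∑ j, N (e j) < s * (∑ j, e j * N (e j)) + s := by omega
        _ = s * ((∑ j, e j * N (e j)) + 1) := by ring
        _ ≤ _ := Nat.mul_le_mul_left _ e3)
  -- the finite field
  obtain ⟨K, hK1, hK2, hK3⟩ := hfin (univ.image y)
  have hyK : ∀ t, y t ∈ K := fun t => hK1 _ (mem_image_of_mem _ (mem_univ t))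
  have hKfin : Finite K := Module.finite_of_finite (ZMod p)
  have hchK : CharP K p := charP_of_injective_algebraMap (algebraMap (ZMod p) K).injective p
  have hKperf : PerfectRing K p := inferInstance
  refine ⟨{ k := K, deg := hK3 }, ?_⟩
  show ∃ x : ι → WittVector p K, (∃ i, ¬ (p : WittVector p K) ^ w i ∣ x i) ∧
      ∀ j, (p : WittVector p K) ^ c ∣ eval₂ (tau p K) x (f j)
  set x : ι → WittVector p K := fun i => WittVector.mk p (fun n =>
    if h : n < w i * s then ⟨y ⟨i, ⟨n, h⟩⟩, hyK _⟩ else 0) with hx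
  have hmap : ∀ j, WittVector.map (algebraMap K κ') (eval₂ (tau p K) x (f j)) =
      eval₂ (tau p κ') (fun i => WittVector.map (algebraMap K κ') (x i)) (f j) := by
    intro j
    have ht : (WittVector.map (algebraMap K κ')).comp (tau p K) = tau p κ' := by
      ext a n
      show algebraMap K κ' (algebraMap (ZMod p) K _) = algebraMap (ZMod p) κ' _
      rw [← IsScalarTower.algebraMap_apply]
    rw [← ht]
    exact eval₂_comp_left _ _ _ _
  have hcoef : ∀ (i : ι) (n : ℕ), (WittVector.map (algebraMap K κ') (x i)).coeff n = eval y (P (i, n)) := by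
    intro i n
    rw [WittVector.map_coeff]
    simp only [hx, hP, WittVector.coeff_mk]
    split_ifs with h
    · rw [eval_X]; rfl
    · rw [map_zero, map_zero]
  have hdiv : ∀ j, (p : WittVector p K) ^ (e j * s + c) ∣ eval₂ (tau p K) x (f j) := by
    intro j
    rw [← Ideal.mem_span_singleton, WittVector.mem_span_p_pow_iff_le_coeff_eq_zero]
    intro m hm
    apply (algebraMap K κ').injective
    rw [← WittVector.map_coeff, hmap, hG2, map_zero]
    have h4 := hy ⟨j, ⟨m, hm⟩⟩
    simp only at h4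
    rw [eval_subst] at h4
    simp only [hcoef]
    exact h4
  -- the largest common divisor
  have hnot : ¬ ∀ i, (p : WittVector p K) ^ (s * w i) ∣ x i := by
    intro hall
    apply hy0
    funext t
    have h5 := hall t.1
    rw [← Ideal.mem_span_singleton, WittVector.mem_span_p_pow_iff_le_coeff_eq_zero] at h5
    have h6 := h5 t.2 (lt_of_lt_of_eq t.2.2 (mul_comm _ _))
    simp only [hx, WittVector.coeff_mk, t.2.2, dif_pos] at h6
    exact congrArg Subtype.val h6
  obtain ⟨a, ha, ha1, ha2⟩ : ∃ a < s, (∀ i, (p : WittVector p K) ^ (a * w i) ∣ x i) ∧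
      ¬ ∀ i, (p : WittVector p K) ^ ((a + 1) * w i) ∣ x i := by
    have hex : ∃ b, ¬ ∀ i, (p : WittVector p K) ^ (b * w i) ∣ x i := ⟨s, hnot⟩
    have hb := Nat.find_spec hex
    have hle : Nat.find hex ≤ s := Nat.find_le hnot
    have hpos : Nat.find hex ≠ 0 := by
      intro h0
      rw [h0] at hb
      apply hb
      intro i
      rw [zero_mul, pow_zero]
      exact one_dvd _
    refine ⟨Nat.find hex - 1, by omega, ?_, ?_⟩
    · exact not_not.1 (Nat.find_min hex (by omega))
    · rw [Nat.sub_add_cancel (Nat.pos_of_ne_zero hpos)]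
      exact hb
  choose x' hx' using ha1
  have hp0 : (p : WittVector p K) ≠ 0 := WittVector.p_nonzero p K
  refine ⟨x', ?_, ?_⟩
  · push Not at ha2
    obtain ⟨i, hi⟩ := ha2
    refine ⟨i, fun hd => hi ?_⟩
    rw [hx' i, add_mul, one_mul, pow_add]
    exact mul_dvd_mul_left _ hd
  · intro j
    have h7 := hdiv j
    have h8 : eval₂ (tau p K) x (f j) = (p : WittVector p K) ^ (a * e j) * eval₂ (tau p K) x' (f j) := by
      have h9 := eval_hom (hf j) (tau p K) ((p : WittVector p K) ^ a) x'
      rw [← pow_mul] at h9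
      rw [← h9]
      congr 1
      funext i
      rw [hx' i, pow_mul]
    rw [h8] at h7
    have h10 : e j * s + c = a * e j + (e j * (s - a) + c) := by
      obtain ⟨d, hd⟩ := Nat.exists_eq_add_of_lt ha
      have hsa : s - a = d + 1 := by omega
      rw [hsa, hd]
      ring
    rw [h10, pow_add] at h7
    have h11 := (mul_dvd_mul_iff_left (pow_ne_zero _ hp0)).1 h7
    exact (pow_dvd_pow _ (Nat.le_add_left _ _)).trans h11

end Pool.Agent.Q216.TL
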